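import Pool.Agent.R345.CT3

set_option autoImplicit false

/-!
# The average size of the `ℓ`-torsion in the class groups of quadratic fields over an ARBITRARY sumset

Let `A`, `B` be arbitrary sets of integers in `[-N, N]`, without any condition on their structure, and let
`1 ≤ r < ℓ` and `|A|, |B| ≥ N ^ ((r + 1) / ℓ)`. The moment of order `r` of the number of the ideal classes killed by `ℓ`
in the class groups of the quadratic fields `ℚ(√(a + b))` (real or imaginary), averaged over the pairs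
`(a, b) ∈ A × B`, is at most `C N ^ (r (1 / 2 - 1 / (2 ℓ)) + ε)`. For `r = 1` this is a bound for the average size of
the `ℓ`-torsion, with the exponent `1 / 2 - 1 / (2 ℓ)`, for `|A|, |B| ≥ N ^ (2 / ℓ)`.
-/

namespace Pool.Agent.Results.MP_16912e_nt.SumsetMoments

open NumberField

lemma sub_Icc {A : Finset ℤ} {M : ℤ} (h : ∀ a ∈ A, |a| ≤ M) : A ⊆ Finset.Icc (-M) M := by
  intro a ha
  rw [Finset.mem_Icc]
  exact abs_le.1 (h a ha)

lemma disc_gt (K : Type) [Field K] [NumberField K] (h : Module.finrank ℚ K = 2) : (2 : ℝ) < |(discr K : ℝ)| := by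
  have h1 : (2 : ℤ) < |discr K| := abs_discr_gt_two (by omega)
  exact_mod_cast h1

/-- powers of the logarithm -/
lemma log_pow_bound (M : ℕ) (ε : ℝ) (hε : 0 < ε) : ∃ c : ℝ, 0 < c ∧ ∀ N : ℝ, 1 ≤ N → (1 + Real.log N) ^ M ≤ c * N ^ ε := by
  obtain ⟨δ, hδ⟩ : ∃ δ : ℝ, δ = ε / (M + 1) := ⟨_, rfl⟩
  have hδ0 : 0 < δ := by rw [hδ]; positivity
  refine ⟨(1 + 1 / δ) ^ M, by positivity, ?_⟩
  intro N hN
  have hN0 : 0 < N := by linarith
  have h1 : Real.log N ≤ N ^ δ / δ := Real.log_le_rpow_div hN0.le hδ0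
  have h2 : (1 : ℝ) ≤ N ^ δ := Real.one_le_rpow hN hδ0.le
  have h3 : 1 + Real.log N ≤ (1 + 1 / δ) * N ^ δ := by
    have e : (1 + 1 / δ) * N ^ δ = N ^ δ + N ^ δ / δ := by ring
    rw [e]
    linarith
  have h4 : 0 ≤ Real.log N := Real.log_nonneg hN
  refine (pow_le_pow_left₀ (by linarith) h3 M).trans ?_
  rw [mul_pow, ← Real.rpow_natCast (N ^ δ) M, ← Real.rpow_mul hN0.le]
  refine mul_le_mul_of_nonneg_left ?_ (by positivity)
  refine Real.rpow_le_rpow_of_exponent_le hN ?_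
  rw [hδ, div_mul_eq_mul_div, div_le_iff₀ (by positivity)]
  nlinarith [(Nat.cast_nonneg M : (0 : ℝ) ≤ M)]

open Pool.Agent.R345.SS in
/-- **Theorem.** Let `1 ≤ r < ℓ` and `ε > 0`. There is a constant `C` such that for all `N ≥ 2`, all sets `A`, `B` of
integers in `[-N, N]` with at least `N ^ ((r + 1) / ℓ)` elements each, and all quadratic fields `K t = ℚ(√t)`,
`t ∈ S`, where `S` is any finite set of integers: the sum of `|Cl(K (a + b))[ℓ]| ^ r` over the pairs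
`(a, b) ∈ A × B` with `a + b ∈ S` is at most `C |A| |B| N ^ (r (1 / 2 - 1 / (2 ℓ)) + ε)`. -/
theorem result (ℓ r : ℕ) (hr : 1 ≤ r) (hrℓ : r < ℓ) (ε : ℝ) (hε : 0 < ε) : ∃ C : ℝ, 0 < C ∧
    ∀ (N : ℕ) (A B : Finset ℤ), 2 ≤ N → (∀ a ∈ A, |a| ≤ (N : ℤ)) → (∀ b ∈ B, |b| ≤ (N : ℤ)) →
      (N : ℝ) ^ (((r : ℝ) + 1) / ℓ) ≤ A.card → (N : ℝ) ^ (((r : ℝ) + 1) / ℓ) ≤ B.card →
      ∀ (S : Finset ℤ) (K : ℤ → Type) [∀ t, Field (K t)] [∀ t, NumberField (K t)] (α : ∀ t, K t),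
        (∀ t ∈ S, Module.finrank ℚ (K t) = 2 ∧ IntermediateField.adjoin ℚ {α t} = ⊤ ∧ α t ^ 2 = (t : K t)) →
        ∑ z ∈ (A ×ˢ B).filter (fun z => z.1 + z.2 ∈ S),
            (Nat.card {x : ClassGroup (𝓞 (K (z.1 + z.2))) // x ^ ℓ = 1} : ℝ) ^ r ≤
          C * (A.card * B.card) * (N : ℝ) ^ ((r : ℝ) * (1 / 2 - 1 / (2 * (ℓ : ℝ))) + ε) := by
  classical
  obtain ⟨C, hC, h⟩ := torsion_pairs (r + 1) (by omega)
  obtain ⟨c, hc, hlog⟩ := log_pow_bound (3 * r + 2) ε hε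
  have hrr : (1 : ℝ) ≤ r := by exact_mod_cast hr
  have hℓr : (r : ℝ) + 1 ≤ ℓ := by exact_mod_cast hrℓ
  have hℓ0 : (0 : ℝ) < ℓ := by linarith
  obtain ⟨θ, hθ⟩ : ∃ θ : ℝ, θ = 1 / 2 - 1 / (2 * (ℓ : ℝ)) := ⟨_, rfl⟩
  obtain ⟨lam, hlam⟩ : ∃ lam : ℝ, lam = ((ℓ : ℝ) - 1) / (2 * (ℓ : ℝ) ^ 2) := ⟨_, rfl⟩
  have hlamθ : lam * ℓ = θ := by
    rw [hlam, hθ]
    field_simp
  have hθ0 : 0 ≤ θ := by
    rw [hθ]
    have : 1 / (2 * (ℓ : ℝ)) ≤ 1 / 2 := one_div_le_one_div_of_le (by norm_num) (by linarith)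
    linarith
  have hθ1 : θ ≤ 1 / 2 := by
    rw [hθ]
    have : 0 < 1 / (2 * (ℓ : ℝ)) := by positivity
    linarith
  have hlam0 : 0 ≤ lam := by
    rw [hlam]
    have : 0 ≤ (ℓ : ℝ) - 1 := by linarith
    positivity
  -- the constants
  obtain ⟨E, hE⟩ : ∃ E : ℝ, E = C * (ℓ : ℝ) ^ 2 * 3 * 1200 ^ ℓ := ⟨_, rfl⟩
  have hE0 : 0 < E := by rw [hE]; positivity
  refine ⟨(E ^ r * 2 ^ r + C ^ (r + 1) * E ^ r) * c, by positivity, ?_⟩
  intro N A B hN hA hB hcA hcB S K _ _ α hS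
  have hNr : (2 : ℝ) ≤ N := by exact_mod_cast hN
  have hN0 : (0 : ℝ) < N := by linarith
  have hN1 : (1 : ℝ) ≤ N := by linarith
  have hl0 : 0 < Real.log N := Real.log_pos (by linarith)
  set L : ℝ := (N : ℝ) ^ lam with hL
  set Y : ℝ := (N : ℝ) ^ (1 / (2 * (ℓ : ℝ))) with hY
  have hL1 : 1 ≤ L := Real.one_le_rpow hN1 hlam0
  have hY1 : 1 ≤ Y := Real.one_le_rpow hN1 (by positivity)
  have hY2 : Y ^ (2 * (r + 1)) = (N : ℝ) ^ (((r : ℝ) + 1) / ℓ) := by
    rw [hY, ← Real.rpow_natCast, ← Real.rpow_mul hN0.le]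
    congr 1
    push_cast
    field_simp
  obtain ⟨G, hGs, hGc, hG⟩ := h N 1 A B L Y hN one_ne_zero (by rw [abs_one]; exact_mod_cast (by omega : 1 ≤ N))
    (sub_Icc hA) (sub_Icc hB) hL1 hY1 (by rw [hY2]; exact hcA) (by rw [hY2]; exact hcB)
  set AB : ℝ := (A.card : ℝ) * B.card with hAB
  have hAB0 : 0 ≤ AB := by positivity
  set V : ℝ := E * (1 + Real.log N ^ 3) * (N : ℝ) ^ θ with hV
  set U : ℝ := E * (N : ℝ) ^ (1 / 2 : ℝ) with hU
  have hV0 : 0 ≤ V := by positivity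
  have hU0 : 0 ≤ U := by positivity
  have h1200 : (1 : ℝ) ≤ 1200 ^ ℓ := one_le_pow₀ (by norm_num)
  have hEC : C * (ℓ : ℝ) ^ 2 * 3 ≤ E := by
    rw [hE]
    exact le_mul_of_one_le_right (by positivity) h1200
  -- the bounds
  have hbound : ∀ z ∈ A ×ˢ B, z.1 + z.2 ∈ S → tor (K (z.1 + z.2)) ℓ ≤ U ∧ (z ∉ G → tor (K (z.1 + z.2)) ℓ ≤ V) := by
    intro z hz hzS
    obtain ⟨s1, s2, s3⟩ := hS _ hzS
    obtain ⟨h1, h2, h3⟩ := hG z hz ℓ (by omega) (K (z.1 + z.2)) (α (z.1 + z.2)) s1 s2 (by rw [one_mul]; exact s3)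
    have hΔ := disc_gt (K (z.1 + z.2)) s1
    set Δ : ℝ := |(discr (K (z.1 + z.2)) : ℝ)| with hΔdef
    have hΔ0 : 0 < Δ := by linarith
    have hz' := Finset.mem_product.1 hz
    have hΔN : Δ ≤ 8 * N := by
      refine h1.trans ?_
      have h7 : |z.1 + z.2| ≤ 2 * (N : ℤ) := by
        have := hA _ hz'.1
        have := hB _ hz'.2
        have := abs_add_le z.1 z.2
        linarith
      have h8 : |((1 * (z.1 + z.2) : ℤ) : ℝ)| ≤ 2 * N := by
        rw [one_mul]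
        exact_mod_cast h7
      linarith
    have hsqrt : √Δ ≤ 3 * (N : ℝ) ^ (1 / 2 : ℝ) := by
      rw [← Real.sqrt_eq_rpow, Real.sqrt_le_left (by positivity), mul_pow, Real.sq_sqrt hN0.le]
      linarith
    have hT1 : tor (K (z.1 + z.2)) ℓ ≤ C * (ℓ : ℝ) ^ 2 * 3 * (N : ℝ) ^ (1 / 2 : ℝ) := by
      refine h2.trans ?_
      calc C * (ℓ : ℝ) ^ 2 * √Δ ≤ C * (ℓ : ℝ) ^ 2 * (3 * (N : ℝ) ^ (1 / 2 : ℝ)) :=
            mul_le_mul_of_nonneg_left hsqrt (by positivity)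
        _ = _ := by ring
    have hNθ : 0 < (N : ℝ) ^ θ := by positivity
    have hVE : E * (N : ℝ) ^ θ ≤ V := by
      rw [hV, mul_assoc]
      refine mul_le_mul_of_nonneg_left ?_ hE0.le
      refine le_mul_of_one_le_left hNθ.le ?_
      have : 0 ≤ Real.log N ^ 3 := by positivity
      linarith
    refine ⟨hT1.trans ?_, fun hzG => ?_⟩
    · rw [hU]
      exact mul_le_mul_of_nonneg_right hEC (by positivity)
    · rcases h3 hzG with h4 | h4
      · rcases min_choice (Δ ^ (1 / (2 * (ℓ : ℝ))) / 600) Y with h6 | h6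
        · -- small discriminants
          rw [h6] at h4
          have h7 : √Δ ≤ 1200 ^ ℓ * (N : ℝ) ^ θ := by
            have h8 : Δ ^ (1 / (2 * (ℓ : ℝ))) ≤ 1200 * L := by linarith
            have h9 : √Δ = (Δ ^ (1 / (2 * (ℓ : ℝ)))) ^ ℓ := by
              rw [← Real.rpow_natCast, ← Real.rpow_mul hΔ0.le, Real.sqrt_eq_rpow]
              congr 1
              field_simp
            have h10 : L ^ ℓ = (N : ℝ) ^ θ := by
              rw [hL, ← Real.rpow_natCast, ← Real.rpow_mul hN0.le, hlamθ]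
            rw [h9, ← h10, ← mul_pow]
            exact pow_le_pow_left₀ (by positivity) h8 ℓ
          refine h2.trans (le_trans ?_ hVE)
          calc C * (ℓ : ℝ) ^ 2 * √Δ ≤ C * (ℓ : ℝ) ^ 2 * (1200 ^ ℓ * (N : ℝ) ^ θ) :=
                mul_le_mul_of_nonneg_left h7 (by positivity)
            _ = (C * (ℓ : ℝ) ^ 2 * 1 * 1200 ^ ℓ) * (N : ℝ) ^ θ := by ring
            _ ≤ (C * (ℓ : ℝ) ^ 2 * 3 * 1200 ^ ℓ) * (N : ℝ) ^ θ := by
                gcongr
                norm_num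
            _ = _ := by rw [hE]
        · -- small `N`
          rw [h6] at h4
          have h7 : (N : ℝ) ^ (1 / (2 * (ℓ : ℝ))) ≤ 1200 ^ ℓ := by
            have h8 : (N : ℝ) ^ (1 / (2 * (ℓ : ℝ) ^ 2)) * L = Y := by
              rw [hL, hY, ← Real.rpow_add hN0]
              congr 1
              rw [hlam]
              field_simp
              ring
            have h9 : (N : ℝ) ^ (1 / (2 * (ℓ : ℝ) ^ 2)) ≤ 1200 := by
              rw [← h8] at h4
              have h10 := lt_of_mul_lt_mul_right h4 (by linarith : 0 ≤ L)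
              linarith
            have h10 : (N : ℝ) ^ (1 / (2 * (ℓ : ℝ))) = ((N : ℝ) ^ (1 / (2 * (ℓ : ℝ) ^ 2))) ^ ℓ := by
              rw [← Real.rpow_natCast, ← Real.rpow_mul hN0.le]
              congr 1
              field_simp
            rw [h10]
            exact pow_le_pow_left₀ (by positivity) h9 ℓ
          have h11 : (N : ℝ) ^ (1 / 2 : ℝ) = (N : ℝ) ^ θ * (N : ℝ) ^ (1 / (2 * (ℓ : ℝ))) := by
            rw [← Real.rpow_add hN0, hθ]
            congr 1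
            ring
          refine hT1.trans (le_trans ?_ hVE)
          rw [h11, hE]
          calc C * (ℓ : ℝ) ^ 2 * 3 * ((N : ℝ) ^ θ * (N : ℝ) ^ (1 / (2 * (ℓ : ℝ)))) ≤
              C * (ℓ : ℝ) ^ 2 * 3 * ((N : ℝ) ^ θ * 1200 ^ ℓ) := by gcongr
            _ = _ := by ring
      · -- the main case
        have h5 : √Δ * max (Δ ^ (-(1 / (2 * (ℓ : ℝ))))) (1 / Y) ≤ 3 * (N : ℝ) ^ θ := by
          rw [mul_max_of_nonneg _ _ (Real.sqrt_nonneg _)]
          apply max_le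
          · rw [Real.sqrt_eq_rpow, ← Real.rpow_add hΔ0]
            have h6 : 1 / 2 + -(1 / (2 * (ℓ : ℝ))) = θ := by rw [hθ]; ring
            rw [h6]
            calc Δ ^ θ ≤ (8 * (N : ℝ)) ^ θ := Real.rpow_le_rpow hΔ0.le hΔN hθ0
              _ = 8 ^ θ * (N : ℝ) ^ θ := Real.mul_rpow (by norm_num) hN0.le
              _ ≤ 3 * (N : ℝ) ^ θ := by
                  refine mul_le_mul_of_nonneg_right ?_ hNθ.le
                  calc (8 : ℝ) ^ θ ≤ 8 ^ (1 / 2 : ℝ) := Real.rpow_le_rpow_of_exponent_le (by norm_num) hθ1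
                    _ ≤ 3 := by
                        rw [← Real.sqrt_eq_rpow, Real.sqrt_le_left (by norm_num)]
                        norm_num
          · have h11 : (N : ℝ) ^ (1 / 2 : ℝ) = (N : ℝ) ^ θ * Y := by
              rw [hY, ← Real.rpow_add hN0, hθ]
              congr 1
              ring
            have hY0 : 0 < Y := by linarith
            calc √Δ * (1 / Y) ≤ (3 * (N : ℝ) ^ (1 / 2 : ℝ)) * (1 / Y) := mul_le_mul_of_nonneg_right hsqrt (by positivity)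
              _ = 3 * (N : ℝ) ^ θ := by
                  rw [h11]
                  field_simp
        calc tor (K (z.1 + z.2)) ℓ ≤ C * ℓ ^ 2 * Real.log N ^ 3 * √Δ * max (Δ ^ (-(1 / (2 * (ℓ : ℝ))))) (1 / Y) := h4
          _ = C * ℓ ^ 2 * Real.log N ^ 3 * (√Δ * max (Δ ^ (-(1 / (2 * (ℓ : ℝ))))) (1 / Y)) := by ring
          _ ≤ C * ℓ ^ 2 * Real.log N ^ 3 * (3 * (N : ℝ) ^ θ) := mul_le_mul_of_nonneg_left h5 (by positivity)
          _ = (C * ℓ ^ 2 * 3) * Real.log N ^ 3 * (N : ℝ) ^ θ := by ring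
          _ ≤ E * (1 + Real.log N ^ 3) * (N : ℝ) ^ θ := by
              gcongr
              linarith
  -- summation
  have hterm : ∀ z ∈ (A ×ˢ B).filter (fun z => z.1 + z.2 ∈ S),
      (Nat.card {x : ClassGroup (𝓞 (K (z.1 + z.2))) // x ^ ℓ = 1} : ℝ) ^ r ≤ V ^ r + (if z ∈ G then U ^ r else 0) := by
    intro z hz
    rw [Finset.mem_filter] at hz
    obtain ⟨b1, b2⟩ := hbound z hz.1 hz.2
    change (tor (K (z.1 + z.2)) ℓ) ^ r ≤ _
    have hT0 : 0 ≤ tor (K (z.1 + z.2)) ℓ := tor_nonneg _ _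
    split_ifs with hzG
    · have := pow_le_pow_left₀ hT0 b1 r
      have : 0 ≤ V ^ r := by positivity
      linarith
    · have := pow_le_pow_left₀ hT0 (b2 hzG) r
      linarith
  refine (Finset.sum_le_sum hterm).trans ?_
  have hsum : ∑ z ∈ (A ×ˢ B).filter (fun z => z.1 + z.2 ∈ S), (V ^ r + (if z ∈ G then U ^ r else 0)) ≤ AB * V ^ r + G.card * U ^ r := by
    rw [Finset.sum_add_distrib, Finset.sum_const, nsmul_eq_mul]
    refine add_le_add ?_ ?_
    · refine mul_le_mul_of_nonneg_right ?_ (by positivity)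
      have h1 := Finset.card_filter_le (A ×ˢ B) (fun z => z.1 + z.2 ∈ S)
      rw [Finset.card_product] at h1
      rw [hAB]
      exact_mod_cast h1
    · rw [← Finset.sum_filter, Finset.sum_const, nsmul_eq_mul]
      refine mul_le_mul_of_nonneg_right ?_ (by positivity)
      have h1 : ((A ×ˢ B).filter (fun z => z.1 + z.2 ∈ S)).filter (fun z => z ∈ G) ⊆ G := fun z hz => (Finset.mem_filter.1 hz).2
      exact_mod_cast Finset.card_le_card h1
  refine hsum.trans ?_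
  set W : ℝ := (1 + Real.log N) ^ (3 * r + 2) with hW
  have hlog1 : 1 ≤ 1 + Real.log N := by linarith
  have hNrθ : ((N : ℝ) ^ θ) ^ r = (N : ℝ) ^ ((r : ℝ) * θ) := by
    rw [← Real.rpow_natCast, ← Real.rpow_mul hN0.le, mul_comm]
  have p1 : V ^ r ≤ E ^ r * 2 ^ r * W * (N : ℝ) ^ ((r : ℝ) * θ) := by
    rw [hV, mul_pow, mul_pow, hNrθ]
    refine mul_le_mul_of_nonneg_right ?_ (by positivity)
    rw [mul_assoc]
    refine mul_le_mul_of_nonneg_left ?_ (by positivity)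
    have q1 : 1 + Real.log N ^ 3 ≤ 2 * (1 + Real.log N) ^ 3 := by
      have a1 : (1 : ℝ) ≤ (1 + Real.log N) ^ 3 := one_le_pow₀ hlog1
      have a2 : Real.log N ^ 3 ≤ (1 + Real.log N) ^ 3 := pow_le_pow_left₀ hl0.le (by linarith) 3
      linarith
    calc (1 + Real.log N ^ 3) ^ r ≤ (2 * (1 + Real.log N) ^ 3) ^ r := pow_le_pow_left₀ (by positivity) q1 r
      _ = 2 ^ r * (1 + Real.log N) ^ (3 * r) := by rw [mul_pow, ← pow_mul]
      _ ≤ 2 ^ r * W := by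
          refine mul_le_mul_of_nonneg_left ?_ (by positivity)
          exact pow_le_pow_right₀ hlog1 (by omega)
  have p2 : (C * Real.log N ^ 2 / L) ^ (r + 1) * U ^ r ≤ C ^ (r + 1) * E ^ r * W * (N : ℝ) ^ ((r : ℝ) * θ) := by
    have hL0 : 0 < L := by linarith
    have q1 : (C * Real.log N ^ 2 / L) ^ (r + 1) = C ^ (r + 1) * Real.log N ^ (2 * (r + 1)) * (N : ℝ) ^ (-(lam * ((r : ℝ) + 1))) := by
      rw [div_pow, mul_pow, ← pow_mul, div_eq_mul_inv]
      congr 1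
      rw [hL, ← Real.rpow_natCast, ← Real.rpow_mul hN0.le, ← Real.rpow_neg hN0.le]
      congr 1
      push_cast
      ring
    have q2 : U ^ r = E ^ r * (N : ℝ) ^ ((r : ℝ) / 2) := by
      rw [hU, mul_pow, ← Real.rpow_natCast ((N : ℝ) ^ (1 / 2 : ℝ)), ← Real.rpow_mul hN0.le]
      congr 2
      ring
    have q3 : Real.log N ^ (2 * (r + 1)) ≤ W := by
      calc Real.log N ^ (2 * (r + 1)) ≤ (1 + Real.log N) ^ (2 * (r + 1)) := pow_le_pow_left₀ hl0.le (by linarith) _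
        _ ≤ W := pow_le_pow_right₀ hlog1 (by omega)
    have q4 : (N : ℝ) ^ (-(lam * ((r : ℝ) + 1))) * (N : ℝ) ^ ((r : ℝ) / 2) ≤ (N : ℝ) ^ ((r : ℝ) * θ) := by
      rw [← Real.rpow_add hN0]
      refine Real.rpow_le_rpow_of_exponent_le hN1 ?_
      have q5 : (r : ℝ) / (2 * ℓ) ≤ lam * ((r : ℝ) + 1) := by
        rw [hlam, div_mul_eq_mul_div, div_le_div_iff₀ (by positivity) (by positivity)]
        nlinarith
      have q6 : (r : ℝ) * θ = r / 2 - r / (2 * ℓ) := by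
        rw [hθ]
        ring
      rw [q6]
      linarith
    rw [q1, q2]
    calc C ^ (r + 1) * Real.log N ^ (2 * (r + 1)) * (N : ℝ) ^ (-(lam * ((r : ℝ) + 1))) * (E ^ r * (N : ℝ) ^ ((r : ℝ) / 2))
        = C ^ (r + 1) * E ^ r * Real.log N ^ (2 * (r + 1)) * ((N : ℝ) ^ (-(lam * ((r : ℝ) + 1))) * (N : ℝ) ^ ((r : ℝ) / 2)) := by ring
      _ ≤ C ^ (r + 1) * E ^ r * W * (N : ℝ) ^ ((r : ℝ) * θ) := by gcongr
  have hWc : W ≤ c * (N : ℝ) ^ ε := hlog N hN1
  rw [← hθ, Real.rpow_add hN0]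
  calc AB * V ^ r + G.card * U ^ r
      ≤ AB * V ^ r + ((C * Real.log N ^ 2 / L) ^ (r + 1) * AB) * U ^ r :=
        add_le_add le_rfl (mul_le_mul_of_nonneg_right hGc (by positivity))
    _ = AB * (V ^ r + (C * Real.log N ^ 2 / L) ^ (r + 1) * U ^ r) := by ring
    _ ≤ AB * (E ^ r * 2 ^ r * W * (N : ℝ) ^ ((r : ℝ) * θ) + C ^ (r + 1) * E ^ r * W * (N : ℝ) ^ ((r : ℝ) * θ)) :=
        mul_le_mul_of_nonneg_left (add_le_add p1 p2) hAB0
    _ = AB * (E ^ r * 2 ^ r + C ^ (r + 1) * E ^ r) * (N : ℝ) ^ ((r : ℝ) * θ) * W := by ring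
    _ ≤ AB * (E ^ r * 2 ^ r + C ^ (r + 1) * E ^ r) * (N : ℝ) ^ ((r : ℝ) * θ) * (c * (N : ℝ) ^ ε) :=
        mul_le_mul_of_nonneg_left hWc (by positivity)
    _ = _ := by ring

end Pool.Agent.Results.MP_16912e_nt.SumsetMoments
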