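import Pool.Agent.H491R4.HM3

/-! # Averages of products of the torsion of the class groups of several quadratic fields, over automatic sets

Let `S` be an automatic set (the set of the integers whose digits in a base `b` are accepted by a finite automaton) of more
than polylogarithmic size; such sets may have as few as `N ^ c` elements below `N`, with arbitrarily small `c > 0`. For
`i = 1, …, r` let `c_i + κ_i u` be a linear form in `u`, and let `K_i` be the quadratic field generated by the square root of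
`j_i (c_i + κ_i u)`. The mean value over the `u < N` in `S` of the product of the numbers of the `ℓ_i`-torsion elements of the
class groups of the fields `K_i` (of absolute discriminant at most `Y_i`) has the power saving
`max (Y_i ^ (-1 / (2 ℓ_i)), N ^ (- δ))` over the trivial bound for each of the factors; the fields may be different, such as
`ℚ(√u)`, `ℚ(√(u+1))`, `ℚ(√(u+2))`, or equal (moments of order `r`).

Definitions used: in `Pool.Agent.H491R4.AF` (file `Pool/Agent/H491R4/AF2.lean`): `acc b M N E`: the number of the integers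
`v < N` accepted by the automaton `M` (reading the digits of `v` in base `b`, the least significant digit first) with the
property `E`. -/

set_option autoImplicit false

namespace Pool.Agent.Results.MP_16912e_nt.AutomaticCorrelations

open Polynomial NumberField Filter
open Pool.Agent.H491R4.AF

open Classical in
/-- The mean value of `f u`, where `u < N` runs through the integers whose digits in base `b` (the least significant digit
first) are accepted by the automaton `M`, is at most `R`. -/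
def MeanValue {σ : Type} (b : ℕ) (M : DFA ℕ σ) (N : ℕ) (R : ℝ) (f : ℕ → ℝ) : Prop :=
  ∑ u ∈ (Finset.range N).filter (fun u => Nat.digits b u ∈ M.accepts), f u ≤ R * acc b M N (fun _ => True)

/-- the scales -/
lemma scales (B : ℕ) (hB : 2 ≤ B) : ∃ N₁ : ℕ, 3 ≤ N₁ ∧ ∀ N : ℕ, N₁ ≤ N → 1 ≤ Real.log N ∧
    Real.log N ≤ ((Nat.log B N + 1 : ℕ) : ℝ) ^ 2 ∧ ((Nat.log B N + 1 : ℕ) : ℝ) ≤ Real.log N ^ 2 := by
  obtain ⟨R, hR⟩ := exists_nat_ge (Real.exp 3)
  refine ⟨B ^ B + R + 3, by omega, fun N hN => ?_⟩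
  have hNr : (0 : ℝ) < N := by exact_mod_cast (by omega : 0 < N)
  have hB2 : (2 : ℝ) ≤ B := by exact_mod_cast hB
  have h3 : 3 ≤ Real.log N := by
    rw [Real.le_log_iff_exp_le hNr]
    exact hR.trans (by exact_mod_cast (by omega : R ≤ N))
  obtain ⟨n, hn⟩ : ∃ n, n = Nat.log B N := ⟨_, rfl⟩
  rw [← hn]
  have hn1 : B ≤ n := by
    rw [hn]
    exact (Nat.le_log_iff_pow_le (by omega) (by omega)).2 (by omega)
  have hN1 : B ^ n ≤ N := by rw [hn]; exact Nat.pow_log_le_self B (by omega)
  have hN2 : N < B ^ (n + 1) := by rw [hn]; exact Nat.lt_pow_succ_log_self (by omega) N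
  refine ⟨by linarith, ?_, ?_⟩
  · have e1 : (N : ℝ) ≤ (B : ℝ) ^ (n + 1) := by exact_mod_cast hN2.le
    have e2 := Real.log_le_log hNr e1
    rw [Real.log_pow] at e2
    have e3 : Real.log B ≤ B := (Real.log_le_sub_one_of_pos (by linarith)).trans (by linarith)
    have e4 : (B : ℝ) ≤ ((n + 1 : ℕ) : ℝ) := by exact_mod_cast (by omega : B ≤ n + 1)
    calc Real.log N ≤ ((n + 1 : ℕ) : ℝ) * Real.log B := e2
      _ ≤ ((n + 1 : ℕ) : ℝ) * ((n + 1 : ℕ) : ℝ) := mul_le_mul_of_nonneg_left (e3.trans e4) (Nat.cast_nonneg _)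
      _ = _ := by ring
  · have e2 : ((B : ℝ)) ^ n ≤ N := by exact_mod_cast hN1
    have e3 := Real.log_le_log (by positivity) e2
    rw [Real.log_pow] at e3
    have e4 : Real.log 2 ≤ Real.log B := Real.log_le_log (by norm_num) hB2
    have e5 := Real.log_two_gt_d9
    have e6 : ((n : ℕ) : ℝ) * (1 / 2) ≤ (n : ℕ) * Real.log B :=
      mul_le_mul_of_nonneg_left (by linarith) (Nat.cast_nonneg _)
    push_cast
    nlinarith

/-- the inequality between the geometric and the arithmetic mean -/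
lemma prod_le_sum_pow {r : ℕ} (hr : 1 ≤ r) (A z : Fin r → ℝ) (hA : ∀ i, 0 < A i) (hz : ∀ i, 0 ≤ z i) :
    ∏ i, z i ≤ ∑ i, ((∏ i, A i) * (1 / r) / (A i) ^ r) * (z i) ^ r := by
  have hr0 : (0 : ℝ) < r := by exact_mod_cast hr
  have h := Real.geom_mean_le_arith_mean_weighted Finset.univ (fun _ : Fin r => (1 : ℝ) / r) (fun i => (z i / A i) ^ r)
    (fun i _ => by positivity) (by
      rw [Finset.sum_const, Finset.card_univ, Fintype.card_fin, nsmul_eq_mul]
      field_simp) (fun i _ => by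
        have := hz i
        have := hA i
        positivity)
  have e1 : ∀ i, ((z i / A i) ^ r) ^ ((1 : ℝ) / r) = z i / A i := by
    intro i
    have h0 : 0 ≤ z i / A i := div_nonneg (hz i) (hA i).le
    rw [one_div, Real.pow_rpow_inv_natCast h0 (by omega)]
  simp only [e1] at h
  rw [Finset.prod_div_distrib] at h
  have hP : 0 < ∏ i, A i := Finset.prod_pos fun i _ => hA i
  rw [div_le_iff₀ hP] at h
  refine h.trans (le_of_eq ?_)
  rw [Finset.sum_mul]
  apply Finset.sum_congr rfl
  intro i _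
  rw [div_pow]
  have := (pow_pos (hA i) r).ne'
  field_simp

open Classical in
/-- products from powers -/
lemma meanValue_prod {σ : Type} {b : ℕ} {M : DFA ℕ σ} {N r : ℕ} (hr : 1 ≤ r) (κ c : Fin r → ℤ) (A : Fin r → ℝ)
    (hA : ∀ i, 0 < A i) (f : Fin r → ℤ → ℝ) (hf : ∀ i v, 0 ≤ f i v)
    (h : ∀ i, MeanS b M N (κ i) (c i) ((A i) ^ r) (fun v => (f i v) ^ r)) :
    MeanValue b M N (∏ i, A i) (fun u => ∏ i, f i (c i + κ i * u)) := by
  have hr0 : (0 : ℝ) < r := by exact_mod_cast hr
  have hP : 0 < ∏ i, A i := Finset.prod_pos fun i _ => hA i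
  unfold MeanValue
  calc ∑ u ∈ (Finset.range N).filter (fun u => Nat.digits b u ∈ M.accepts), ∏ i, f i (c i + κ i * u)
      ≤ ∑ u ∈ (Finset.range N).filter (fun u => Nat.digits b u ∈ M.accepts),
          ∑ i, ((∏ i, A i) * (1 / r) / (A i) ^ r) * (f i (c i + κ i * u)) ^ r :=
        Finset.sum_le_sum fun u _ => prod_le_sum_pow hr A _ hA fun i => hf i _
    _ = ∑ i, ((∏ i, A i) * (1 / r) / (A i) ^ r) *
          ∑ u ∈ (Finset.range N).filter (fun u => Nat.digits b u ∈ M.accepts), (f i (c i + κ i * u)) ^ r := by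
        rw [Finset.sum_comm]
        apply Finset.sum_congr rfl
        intro i _
        rw [Finset.mul_sum]
    _ ≤ ∑ i : Fin r, ((∏ i, A i) * (1 / r) / (A i) ^ r) * ((A i) ^ r * acc b M N (fun _ => True)) := by
        apply Finset.sum_le_sum
        intro i _
        apply mul_le_mul_of_nonneg_left (h i)
        have := hA i
        positivity
    _ = ∑ i : Fin r, ((∏ i, A i) * (1 / r)) * acc b M N (fun _ => True) := by
        apply Finset.sum_congr rfl
        intro i _
        have := (pow_pos (hA i) r).ne'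
        field_simp
    _ = _ := by
        rw [Finset.sum_const, Finset.card_univ, Fintype.card_fin, nsmul_eq_mul]
        field_simp

open Classical in
/-- **Averages of products of torsion over automatic sets.** Let `S` be the set of the integers `u ≥ 0` whose digits in
base `b ≥ 2` are accepted by a finite automaton `M`, and suppose that `S` has more than polylogarithmic size: for every `k`
there are infinitely many `N` such that more than `(log N) ^ k` elements of `S` are smaller than `N`. For every `r ≥ 1` there is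
`δ > 0` such that for all nonzero `κ_1, …, κ_r` and `T`, `V` there are `D`, `N₀` such that the following holds for all `N ≥ N₀`,
all `c_1, …, c_r`, all integers `j_i ≠ 0` with `|j_i| ≤ (log N) ^ T`, all `ℓ_i` with `1 ≤ ℓ_i ≤ (log N) ^ T` and all `Y_i ≥ 1`.

For each `i` let `K_{i,v} = ℚ(√(j_i v))` be quadratic fields with discriminant of absolute value at most `Y_i`, for the integers
`v` in a set `S'_i` of integers of absolute value at most `N ^ V`. Then the mean value, over the `u < N` in `S`, of the product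
over `i` of the numbers `#Cl(K_{i,v})[ℓ_i]`, `v = c_i + κ_i u` (the factor is `0` if `v` is not in `S'_i`), is at most the product
over `i` of `(log N) ^ D Y_i ^ (1 / 2) max (Y_i ^ (-1 / (2 ℓ_i)), N ^ (- δ))`. -/
theorem result {σ : Type} [Fintype σ] (b : ℕ) (hb : 2 ≤ b) (M : DFA ℕ σ)
    (hS : ∀ k : ℕ, ∃ᶠ N : ℕ in atTop, Real.log N ^ k < (acc b M N (fun _ => True) : ℝ)) (r : ℕ) (hr : 1 ≤ r) :
    ∃ δ : ℝ, 0 < δ ∧
    ∀ κ : Fin r → ℤ, (∀ i, κ i ≠ 0) → ∀ T V : ℕ, ∃ D N₀ : ℕ, ∀ N : ℕ, N₀ ≤ N →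
    ∀ c j : Fin r → ℤ, (∀ i, j i ≠ 0 ∧ (|j i| : ℝ) ≤ Real.log N ^ T) →
    ∀ ℓ : Fin r → ℕ, (∀ i, 1 ≤ ℓ i ∧ (ℓ i : ℝ) ≤ Real.log N ^ T) → ∀ Y : Fin r → ℝ, (∀ i, 1 ≤ Y i) →
    ∀ (S' : Fin r → Set ℤ) (K : Fin r → ℤ → Type) [∀ i v, Field (K i v)] [∀ i v, NumberField (K i v)],
    (∀ i, ∀ v ∈ S' i, |v| ≤ (N : ℤ) ^ V ∧ Module.finrank ℚ (K i v) = 2 ∧ |(discr (K i v) : ℝ)| ≤ Y i ∧
      ∃ α : K i v, IntermediateField.adjoin ℚ {α} = ⊤ ∧ α ^ 2 = ((j i * v : ℤ) : K i v)) →
    MeanValue b M N (∏ i, (Real.log N ^ D * (√(Y i) * max (Y i ^ (-(1 / (2 * (ℓ i : ℝ))))) ((N : ℝ) ^ (-δ)))))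
      (fun u => ∏ i, if c i + κ i * u ∈ S' i then
        (Nat.card {x : ClassGroup (𝓞 (K i (c i + κ i * u))) // x ^ ℓ i = 1} : ℝ) else 0) := by
  obtain ⟨B, W, hB, hW, H⟩ := torsion_mom_aut b hb M hS r hr
  obtain ⟨N₂, _, hN₂⟩ := scales B hB
  have hWr : (0 : ℝ) < W := by exact_mod_cast hW
  refine ⟨1 / W, by positivity, fun κ hκ T V => ?_⟩
  choose D k₀ J using fun i => H (κ i) (hκ i) 2 le_rfl (2 * T) V
  obtain ⟨D', hD'⟩ : ∃ D' : ℕ, ∀ i, D i ≤ D' := ⟨∑ i, D i, fun i => Finset.single_le_sum (f := D) (fun _ _ => Nat.zero_le _) (Finset.mem_univ i)⟩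
  obtain ⟨k', hk'⟩ : ∃ k' : ℕ, ∀ i, k₀ i ≤ k' := ⟨∑ i, k₀ i, fun i => Finset.single_le_sum (f := k₀) (fun _ _ => Nat.zero_le _) (Finset.mem_univ i)⟩
  refine ⟨2 * D', N₂ + B ^ k' + 1, fun N hN c j hj ℓ hℓ Y hY S' K _ _ hS' => ?_⟩
  obtain ⟨hl1, hl2, hl3⟩ := hN₂ N (by omega)
  obtain ⟨k, hk⟩ : ∃ k, k = Nat.log B N + 1 := ⟨_, rfl⟩
  have hkk : k' ≤ k := by
    have : k' ≤ Nat.log B N := (Nat.le_log_iff_pow_le (by omega) (by omega)).2 (by omega)
    omega
  have hN2 : N < B ^ k := by rw [hk]; exact Nat.lt_pow_succ_log_self (by omega) N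
  rw [← hk] at hl2 hl3
  have hl0 : 0 < Real.log N := by linarith
  have hk1 : 1 ≤ k := by omega
  have hk0 : (0 : ℝ) < k := by exact_mod_cast (by omega : 0 < k)
  have hNr : (0 : ℝ) < N := by exact_mod_cast (by omega : 0 < N)
  have hB0 : (0 : ℝ) < B := by exact_mod_cast (by omega : 0 < B)
  have hlT : ∀ s : ℕ, Real.log N ^ s ≤ (k : ℝ) ^ (2 * s) := by
    intro s
    rw [pow_mul]
    exact pow_le_pow_left₀ hl0.le hl2 s
  have hint : ∀ z : ℤ, (|z| : ℝ) ≤ Real.log N ^ T → |z| ≤ (k : ℤ) ^ (2 * T) := by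
    intro z hz
    have h5 := hz.trans (hlT T)
    exact_mod_cast h5
  have hsmall : Pool.Agent.R459.Tor.Small 2 ((k : ℤ) ^ (2 * T)) (X ^ 2) :=
    ⟨monic_X_pow 2, natDegree_X_pow 2, fun i => by
      have hk1 : (1 : ℤ) ≤ (k : ℤ) ^ (2 * T) := one_le_pow₀ (by exact_mod_cast (by omega : 1 ≤ k))
      rw [coeff_X_pow]
      split_ifs
      · simp [hk1]
      · simp⟩
  apply meanValue_prod (f := fun i v => if v ∈ S' i then (Nat.card {x : ClassGroup (𝓞 (K i v)) // x ^ ℓ i = 1} : ℝ) else 0) hr κ c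
  · intro i
    have : 0 < Y i := by linarith [hY i]
    have h2 : 0 < max (Y i ^ (-(1 / (2 * (ℓ i : ℝ))))) ((N : ℝ) ^ (-(1 / (W : ℝ)))) := lt_max_of_lt_right (by positivity)
    positivity
  · intro i v
    split_ifs
    · positivity
    · exact le_rfl
  · intro i
    have hY0 : 0 < Y i := by linarith [hY i]
    have hℓ' : ℓ i ≤ k ^ (2 * T) := by exact_mod_cast (hℓ i).2.trans (hlT T)
    have h1 := J i N k hk ((hk' i).trans hkk) (c i) (X ^ 2) hsmall (j i) (hj i).1 (hint (j i) (hj i).2) (ℓ i) (hℓ i).1 hℓ' (Y i) (hY i)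
      (S' i) (K i) (by
        intro v hv
        obtain ⟨h1, h2, h3, α, h4, h5⟩ := hS' i v hv
        refine ⟨?_, h2, h3, α, h4, ?_⟩
        · refine h1.trans ?_
          have h6 : N ^ V ≤ B ^ (V * k) := by
            rw [mul_comm, pow_mul]
            exact Nat.pow_le_pow_left hN2.le V
          exact_mod_cast h6
        · rw [map_pow, aeval_X]
          exact h5)
    have e1 : ((2 * (2 - 1) * ℓ i : ℕ) : ℝ) = 2 * ℓ i := by push_cast; ring
    rw [e1] at h1
    have h2 : (fun v => if v ∈ S' i then (Nat.card {x : ClassGroup (𝓞 (K i v)) // x ^ ℓ i = 1} : ℝ) ^ r else 0) =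
        fun v => (if v ∈ S' i then (Nat.card {x : ClassGroup (𝓞 (K i v)) // x ^ ℓ i = 1} : ℝ) else 0) ^ r := by
      funext v
      split_ifs
      · rfl
      · rw [zero_pow (by omega)]
    rw [h2] at h1
    refine MeanS.mono h1 ?_
    apply pow_le_pow_left₀ (by positivity)
    apply mul_le_mul
    · rw [pow_mul]
      refine le_trans ?_ (pow_le_pow_left₀ hk0.le hl3 D')
      exact pow_le_pow_right₀ (by exact_mod_cast hk1) (hD' i)
    · apply mul_le_mul_of_nonneg_left _ (Real.sqrt_nonneg _)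
      apply max_le_max le_rfl
      have e1 : (B : ℝ) ^ (-((k : ℝ) / W)) = ((B : ℝ) ^ k) ^ (-(1 / (W : ℝ))) := by
        rw [← Real.rpow_natCast, ← Real.rpow_mul hB0.le]
        congr 1
        ring
      rw [e1]
      apply Real.rpow_le_rpow_of_nonpos hNr
      · exact_mod_cast hN2.le
      · have : 0 < 1 / (W : ℝ) := by positivity
        linarith
    · positivity
    · positivity

end Pool.Agent.Results.MP_16912e_nt.AutomaticCorrelations
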