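import Pool.Agent.R459.Tor9

/-! # The average size of the `ℓ`-torsion of the class groups of the fields `ℚ(√(j v))`, where `v` runs through sparse families
given by digits

The families have as few as `N ^ c` of the integers up to `N = b ^ k`, with any `c > 0`: the rearrangements of `k` digits, the
palindromes, the integers with independent pairs of mirror digits (in particular all integers whose `i`-th digit lies in an
arbitrary set `D i` with at least two digits, for all `i`). For every `ℓ` the average over such a family of the number of the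
classes killed by `ℓ` has a power saving `N ^ (- δ)` over the trivial bound `N ^ (1 / 2)`, where `δ` depends only on the type of the
families, and it is at most `N ^ (1 / 2 - 1 / (2 ℓ) + ε)` for `ℓ ≥ 1 / (2 δ)`; uniformly in `ℓ`, `j` and the shift `c`.

Definitions used: in `Pool.Agent.R459.Eq` (file `Pool/Agent/R459/Mn.lean`): `Mean b k κ c η M f`: the mean value of `f (c + κ v)` over
each of the three families is at most `M`. -/

set_option autoImplicit false

namespace Pool.Agent.Results.MP_16912e_nt.DigitFamilyAverages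

open Polynomial NumberField Pool.Agent.R459.Eq Pool.Agent.R459.Tor

open Classical in
/-- **The average of the `ℓ`-torsion over sparse families given by digits.** Let `b ≥ 2` and `η > 0`. There is `δ > 0` such that
for `κ ≠ 0` and `T`, `V` there are `B`, `k₀` such that the following holds for all `k ≥ k₀`, all `c`, all integers `j ≠ 0` with `|j| ≤ k ^ T`, all
`ℓ` with `1 ≤ ℓ ≤ k ^ T` and all `Y ≥ 1`.

Let `K_v = ℚ(√(j v))` be quadratic fields with discriminant of absolute value at most `Y`, for the integers `v` in a set `S` of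
integers of absolute value at most `b ^ (V k)`. Then the mean value, over the members `v = c + κ u` of each of the families of
integers with `k` digits described by `Mean` (the rearrangements of `k` digits, the palindromes, the integers with
independent pairs of mirror digits), of the number of the ideal classes of `K_v` killed by `ℓ` (with `0` if `v` is not in `S`) is at most
`k ^ B Y ^ (1 / 2) max (Y ^ (-1 / (2 ℓ)), b ^ (- δ k))`. -/
theorem result (b : ℕ) (hb : 2 ≤ b) (η : ℝ) (hη : 0 < η) : ∃ δ : ℝ, 0 < δ ∧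
    ∀ κ : ℤ, κ ≠ 0 → ∀ T V : ℕ, ∃ B k₀ : ℕ, ∀ k : ℕ, k₀ ≤ k → ∀ c j : ℤ, j ≠ 0 → |j| ≤ (k : ℤ) ^ T →
    ∀ ℓ : ℕ, 1 ≤ ℓ → ℓ ≤ k ^ T → ∀ Y : ℝ, 1 ≤ Y →
    ∀ (S : Set ℤ) (K : ℤ → Type) [∀ v, Field (K v)] [∀ v, NumberField (K v)],
    (∀ v ∈ S, |v| ≤ (b : ℤ) ^ (V * k) ∧ Module.finrank ℚ (K v) = 2 ∧ |(discr (K v) : ℝ)| ≤ Y ∧
      ∃ α : K v, IntermediateField.adjoin ℚ {α} = ⊤ ∧ α ^ 2 = ((j * v : ℤ) : K v)) →
    Mean b k κ c η ((k : ℝ) ^ B * (√Y * max (Y ^ (-(1 / (2 * ℓ : ℝ)))) ((b : ℝ) ^ (-(δ * k)))))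
      (fun v => if v ∈ S then (Nat.card {x : ClassGroup (𝓞 (K v)) // x ^ ℓ = 1} : ℝ) else 0) := by
  obtain ⟨W, hW, H⟩ := torsion_mean b hb η hη
  have hWr : (0 : ℝ) < W := by exact_mod_cast hW
  refine ⟨1 / W, by positivity, fun κ hκ T V => ?_⟩
  obtain ⟨B, k₀, J⟩ := H κ hκ 2 le_rfl T V
  refine ⟨B, k₀ + 1, fun k hk c j hj0 hj ℓ hℓ hℓT Y hY S K _ _ hS => ?_⟩
  have h1 := J k (by omega) c (X ^ 2) ⟨monic_X_pow 2, natDegree_X_pow 2, fun i => by
    have hk1 : (1 : ℤ) ≤ (k : ℤ) ^ T := one_le_pow₀ (by exact_mod_cast (by omega : 1 ≤ k))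
    rw [coeff_X_pow]
    split_ifs
    · simp [hk1]
    · simp⟩ j hj0 hj ℓ hℓ hℓT Y hY S K (by
    intro v hv
    obtain ⟨h1, h2, h3, α, h4, h5⟩ := hS v hv
    refine ⟨h1, h2, h3, α, h4, ?_⟩
    rw [map_pow, aeval_X]
    exact h5)
  have e1 : ((2 * (2 - 1) * ℓ : ℕ) : ℝ) = 2 * ℓ := by push_cast; ring
  have e2 : (k : ℝ) / W = 1 / W * k := by ring
  rw [e1, e2] at h1
  convert h1

end Pool.Agent.Results.MP_16912e_nt.DigitFamilyAverages
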