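import Pool.Agent.R418.UP.F

set_option autoImplicit false

/-!
# The average size of the `l`-torsion in the class groups of the fields `ℚ(√f(j))`

Let `f` be ANY polynomial with integer coefficients, of degree between `1` and `D`, without multiple
roots, whose coefficients have absolute values at most `T₀ ^ B`.  Let the number `N` of values be at
least a power of the logarithm: `(log T₀) ^ C ≤ N ≤ T₀`.

If the (real or imaginary) quadratic fields `k j`, `j ∈ S`, contain the square roots of the values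
`f(j)`, `j < N` (not squares), and have discriminants of absolute value at most `Y`, then for ALL
`l ≥ 1` and ALL `r ≥ 0` the sum over `j ∈ S` of the `r`-th power of the number of the ideal classes
of `k j` killed by `l` is at most

  `K N (K √Y T₀ ^ ε) ^ r max (Y ^ (- r / (2 l)), N ^ (- 1 / 3 + δ))`.

The constants `C`, `K` depend only on `ε`, `δ`, `B`, `D`, and not on `f`, `T₀`, `N`, `l`, `r`, `Y`.
-/

namespace Pool.Agent.Results.MP_16912e_nt.PolynomialAverages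

open Polynomial NumberField

/-- the polynomials of degree between `1` and `D` without multiple roots (separable over `ℚ`) whose
coefficients have absolute values at most `M` -/
def Fam (D : ℕ) (M : ℝ) : Set ℤ[X] := {f | 1 ≤ f.natDegree ∧ f.natDegree ≤ D ∧
  (f.map (Int.castRingHom ℚ)).Separable ∧ ∀ i, |((f.coeff i : ℤ) : ℝ)| ≤ M}

/-- the number of the ideal classes of `K` killed by `l` -/
noncomputable def tor (K : Type) [Field K] [NumberField K] (l : ℕ) : ℕ :=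
  Nat.card {x : ClassGroup (𝓞 K) // x ^ l = 1}

theorem result (ε δ : ℝ) (B D : ℕ) (hε : 0 < ε) (hδ : 0 < δ) (hD : 1 ≤ D) :
    ∃ C K : ℝ, 0 < C ∧ 0 < K ∧ ∀ T₀ N : ℕ, ∀ f ∈ Fam D ((T₀ : ℝ) ^ B),
      Real.log T₀ ^ C ≤ N → N ≤ T₀ → ∀ l r : ℕ, 1 ≤ l →
        ∀ (Y : ℝ) (S : Finset ℕ) (k : ℕ → Type) [∀ j, Field (k j)] [∀ j, NumberField (k j)],
          (∀ j ∈ S, j < N ∧ ¬ IsSquare (f.eval (j : ℤ)) ∧ Module.finrank ℚ (k j) = 2 ∧
            (∃ x : k j, x ^ 2 = ((f.eval (j : ℤ) : ℤ) : k j)) ∧ |(discr (k j) : ℝ)| ≤ Y) →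
          ∑ j ∈ S, (tor (k j) l : ℝ) ^ r ≤ K * N * (K * √Y * (T₀ : ℝ) ^ ε) ^ r *
            max (Y ^ (-((r : ℝ) / (2 * (l : ℝ))))) ((N : ℝ) ^ (-(1 / 3) + δ)) := by
  classical
  obtain ⟨C, K₁, hC, hK₁, h⟩ := Pool.Agent.R418.UP.mainT (ε / 2) δ B D (by positivity) hδ hD
  obtain ⟨C₁, hC₁, htor⟩ := Pool.Agent.R418.UP.tor_choose
  obtain ⟨c₁, hc₁⟩ : ∃ c₁ : ℝ, c₁ = Real.log (4 * (D + 1)) + (B + D) / ε := ⟨_, rfl⟩
  have hDr : (1 : ℝ) ≤ D := by exact_mod_cast hD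
  have hc₁0 : 0 ≤ c₁ := by
    rw [hc₁]
    have h1 : 0 ≤ Real.log (4 * ((D : ℝ) + 1)) := Real.log_nonneg (by linarith)
    positivity
  obtain ⟨K, hK⟩ : ∃ K : ℝ, K = 1 + K₁ + C₁ * c₁ := ⟨_, rfl⟩
  have hCc : 0 ≤ C₁ * c₁ := mul_nonneg hC₁.le hc₁0
  have hK1 : 1 ≤ K := by rw [hK]; linarith
  have hKK₁ : 1 + K₁ ≤ K := by rw [hK]; linarith
  have hKC : C₁ * c₁ ≤ K := by rw [hK]; linarith
  refine ⟨C, K, hC, by linarith, fun T₀ N f hf h1 h3 => ?_⟩
  obtain ⟨hf1, hf2, hf3, hf4⟩ := hf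
  intro l r hl Y S k _ _ hS
  rcases Nat.eq_zero_or_pos N with hN0 | hN
  · have hSe : S = ∅ := by
      rw [Finset.eq_empty_iff_forall_notMem]
      intro j hj
      have := (hS j hj).1
      omega
    rw [hSe, Finset.sum_empty, hN0]
    simp
  by_cases hSn : S = ∅
  · rw [hSn, Finset.sum_empty]
    have : 0 ≤ √Y := Real.sqrt_nonneg _
    positivity
  obtain ⟨j₀, hj₀⟩ := Finset.nonempty_of_ne_empty hSn
  have hY2 : 2 < Y := by
    have h4 := NumberField.abs_discr_gt_two (K := k j₀) (by rw [(hS j₀ hj₀).2.2.1]; norm_num)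
    have h5 : (2 : ℝ) < |(discr (k j₀) : ℝ)| := by exact_mod_cast h4
    exact h5.trans_le (hS j₀ hj₀).2.2.2.2
  have hY0 : 0 < Y := by linarith
  have hN1 : (1 : ℝ) ≤ N := by exact_mod_cast hN
  have hN0' : (0 : ℝ) < N := by linarith
  have hT1 : (1 : ℝ) ≤ T₀ := by exact_mod_cast le_trans hN h3
  have hT0 : (0 : ℝ) < T₀ := by linarith
  have hTε : 1 ≤ (T₀ : ℝ) ^ ε := Real.one_le_rpow hT1 hε.le
  -- the two sets
  set G : Finset ℕ := S.filter fun j => Pool.Agent.R418.UP.BadT (ε / 2) T₀ (f.eval (j : ℤ)) with hG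
  have hGc : (G.card : ℝ) ≤ K₁ * (N : ℝ) ^ (2 / 3 + δ) :=
    h T₀ N f hf1 hf2 hf3 hf4 h1 h3 G fun j hj => by
      rw [hG, Finset.mem_filter] at hj
      exact ⟨(hS j hj.1).1, hj.2⟩
  obtain ⟨ℓ, hℓ⟩ : ∃ ℓ : ℝ, ℓ = (l : ℝ) := ⟨_, rfl⟩
  have hℓ1 : 1 ≤ ℓ := by
    rw [hℓ]
    exact_mod_cast hl
  have hθ : 0 ≤ 1 / 2 - 1 / (2 * ℓ) := by
    have : 1 / (2 * ℓ) ≤ 1 / 2 := one_div_le_one_div_of_le (by norm_num) (by linarith)
    linarith
  obtain ⟨U, hU⟩ : ∃ U : ℝ, U = K * √Y * (T₀ : ℝ) ^ ε := ⟨_, rfl⟩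
  have hU0 : 0 ≤ U := by
    rw [hU]
    have := Real.sqrt_nonneg Y
    positivity
  obtain ⟨M, hM⟩ : ∃ M : ℝ, M = max (Y ^ (-((r : ℝ) / (2 * ℓ)))) ((N : ℝ) ^ (-(1 / 3) + δ)) :=
    ⟨_, rfl⟩
  have hM1 : Y ^ (-((r : ℝ) / (2 * ℓ))) ≤ M := by rw [hM]; exact le_max_left _ _
  have hM2 : (N : ℝ) ^ (-(1 / 3) + δ) ≤ M := by rw [hM]; exact le_max_right _ _
  have hM0 : 0 ≤ M := le_trans (by positivity) hM1
  -- the values outside the exceptional set
  have hgood : ∀ j ∈ S, j ∉ G → (tor (k j) l : ℝ) ^ r ≤ U ^ r * M := by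
    intro j hj hjG
    obtain ⟨a1, a2, a3, a4, a5⟩ := hS j hj
    have hnb : ¬ Pool.Agent.R418.UP.BadT (ε / 2) T₀ (f.eval (j : ℤ)) := by
      intro hb
      exact hjG (by rw [hG, Finset.mem_filter]; exact ⟨hj, hb⟩)
    have ht : (tor (k j) l : ℝ) ≤
        |(discr (k j) : ℝ)| ^ (1 / 2 - 1 / (2 * ℓ)) * (T₀ : ℝ) ^ (ε / 2) := by
      by_contra hcon
      push Not at hcon
      refine hnb ⟨a2, k j, inferInstance, inferInstance, l, a3, a4, hl, ?_⟩
      rw [← hℓ]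
      exact hcon
    have ht2 : (tor (k j) l : ℝ) ≤
        U * Y ^ (-(1 / (2 * ℓ))) := by
      refine ht.trans ?_
      have b1 : |(discr (k j) : ℝ)| ^ (1 / 2 - 1 / (2 * ℓ)) ≤ Y ^ (1 / 2 - 1 / (2 * ℓ)) :=
        Real.rpow_le_rpow (abs_nonneg _) a5 hθ
      have b2 : Y ^ (1 / 2 - 1 / (2 * ℓ)) = √Y * Y ^ (-(1 / (2 * ℓ))) := by
        rw [Real.sqrt_eq_rpow, ← Real.rpow_add hY0]
        congr 1
      have b3 : (T₀ : ℝ) ^ (ε / 2) ≤ (T₀ : ℝ) ^ ε :=
        Real.rpow_le_rpow_of_exponent_le hT1 (by linarith)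
      have b4 : 0 ≤ √Y * Y ^ (-(1 / (2 * ℓ))) := by positivity
      calc |(discr (k j) : ℝ)| ^ (1 / 2 - 1 / (2 * ℓ)) * (T₀ : ℝ) ^ (ε / 2)
          ≤ (√Y * Y ^ (-(1 / (2 * ℓ)))) * (T₀ : ℝ) ^ ε := by
            rw [← b2]
            exact mul_le_mul b1 b3 (by positivity) (by positivity)
        _ ≤ K * ((√Y * Y ^ (-(1 / (2 * ℓ)))) * (T₀ : ℝ) ^ ε) :=
            le_mul_of_one_le_left (by positivity) hK1
        _ = U * Y ^ (-(1 / (2 * ℓ))) := by rw [hU]; ring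
    refine (pow_le_pow_left₀ (Nat.cast_nonneg _) ht2 r).trans ?_
    rw [mul_pow]
    refine mul_le_mul_of_nonneg_left ?_ (pow_nonneg hU0 r)
    have b5 : (Y ^ (-(1 / (2 * ℓ)))) ^ r = Y ^ (-((r : ℝ) / (2 * ℓ))) := by
      rw [← Real.rpow_natCast, ← Real.rpow_mul hY0.le]
      congr 1
      ring
    rw [b5]
    exact hM1
  -- the trivial bound
  have hall : ∀ j ∈ S, (tor (k j) l : ℝ) ^ r ≤ U ^ r := by
    intro j hj
    obtain ⟨a1, a2, a3, ⟨x, a4⟩, a5⟩ := hS j hj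
    refine pow_le_pow_left₀ (Nat.cast_nonneg _) ?_ r
    have t1 : (tor (k j) l : ℝ) ≤
        C₁ * √|(discr (k j) : ℝ)| * Real.log |(discr (k j) : ℝ)| :=
      (htor (k j) a3 l hl).1
    have t2 := (Pool.Agent.R418.UP.disc_rel2 (k j) a3 (f.eval (j : ℤ)) a2 x a4).2
    have t3 := Pool.Agent.R418.UP.eval_le f D hf2 ((T₀ : ℝ) ^ B) T₀ (one_le_pow₀ hT1) hT1 hf4 j (by
      exact_mod_cast (a1.le.trans h3))
    have t4 : |(discr (k j) : ℝ)| ≤ 4 * (D + 1) * (T₀ : ℝ) ^ (B + D) := by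
      refine t2.trans ?_
      rw [pow_add]
      linarith
    have hdpos : 0 < |(discr (k j) : ℝ)| := abs_pos.mpr (by exact_mod_cast discr_ne_zero (k j))
    have t5 : Real.log |(discr (k j) : ℝ)| ≤ c₁ * (T₀ : ℝ) ^ ε := by
      refine (Real.log_le_log hdpos t4).trans ?_
      rw [Real.log_mul (by positivity) (by positivity), Real.log_pow, hc₁]
      have u1 : Real.log T₀ ≤ (T₀ : ℝ) ^ ε / ε := Real.log_le_rpow_div hT0.le hε
      have u2 : 0 ≤ Real.log (4 * ((D : ℝ) + 1)) := Real.log_nonneg (by linarith)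
      have u3 : Real.log (4 * ((D : ℝ) + 1)) ≤ Real.log (4 * ((D : ℝ) + 1)) * (T₀ : ℝ) ^ ε :=
        le_mul_of_one_le_right u2 hTε
      have u4 : ((B + D : ℕ) : ℝ) * Real.log T₀ ≤ ((B : ℝ) + D) / ε * (T₀ : ℝ) ^ ε := by
        push_cast
        have := mul_le_mul_of_nonneg_left u1 (by positivity : (0 : ℝ) ≤ (B : ℝ) + D)
        calc ((B : ℝ) + D) * Real.log T₀ ≤ ((B : ℝ) + D) * ((T₀ : ℝ) ^ ε / ε) := this
          _ = ((B : ℝ) + D) / ε * (T₀ : ℝ) ^ ε := by ring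
      rw [add_mul]
      linarith
    refine t1.trans ?_
    have t6 : √|(discr (k j) : ℝ)| ≤ √Y := Real.sqrt_le_sqrt a5
    calc C₁ * √|(discr (k j) : ℝ)| * Real.log |(discr (k j) : ℝ)|
        ≤ C₁ * √|(discr (k j) : ℝ)| * (c₁ * (T₀ : ℝ) ^ ε) :=
          mul_le_mul_of_nonneg_left t5 (by positivity)
      _ ≤ C₁ * √Y * (c₁ * (T₀ : ℝ) ^ ε) :=
          mul_le_mul_of_nonneg_right (mul_le_mul_of_nonneg_left t6 hC₁.le) (by positivity)
      _ = (C₁ * c₁) * (√Y * (T₀ : ℝ) ^ ε) := by ring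
      _ ≤ K * (√Y * (T₀ : ℝ) ^ ε) := mul_le_mul_of_nonneg_right hKC (by positivity)
      _ = U := by rw [hU]; ring
  -- the sum
  rw [← hℓ, ← hU, ← hM]
  have hsum : ∑ j ∈ S, (tor (k j) l : ℝ) ^ r ≤
      ∑ j ∈ S, (U ^ r * M + if j ∈ G then U ^ r else 0) := by
    refine Finset.sum_le_sum fun j hj => ?_
    by_cases hjG : j ∈ G
    · rw [if_pos hjG]
      have := hall j hj
      have h6 : 0 ≤ U ^ r * M := by positivity
      linarith
    · rw [if_neg hjG, add_zero]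
      exact hgood j hj hjG
  refine hsum.trans ?_
  rw [Finset.sum_add_distrib, Finset.sum_const, nsmul_eq_mul, ← Finset.sum_filter,
    Finset.sum_const, nsmul_eq_mul]
  have hSN : (S.card : ℝ) ≤ N := by
    have h6 : S ⊆ Finset.range N := fun j hj => Finset.mem_range.2 (hS j hj).1
    have h7 := Finset.card_le_card h6
    rw [Finset.card_range] at h7
    exact_mod_cast h7
  have hGf : ((S.filter (fun j => j ∈ G)).card : ℝ) ≤ G.card := by
    exact_mod_cast Finset.card_le_card (fun j hj => (Finset.mem_filter.1 hj).2)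
  have hNe : (N : ℝ) ^ (2 / 3 + δ) = N * (N : ℝ) ^ (-(1 / 3) + δ) := by
    rw [← Real.rpow_one_add' hN0'.le (by
      have : (1 : ℝ) + (-(1 / 3) + δ) = 2 / 3 + δ := by ring
      rw [this]
      positivity)]
    congr 1
    ring
  have hUr : 0 ≤ U ^ r := pow_nonneg hU0 r
  have e1 : (S.card : ℝ) * (U ^ r * M) ≤ N * (U ^ r * M) :=
    mul_le_mul_of_nonneg_right hSN (by positivity)
  have e2 : ((S.filter (fun j => j ∈ G)).card : ℝ) * U ^ r ≤ K₁ * (N * M) * U ^ r := by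
    refine mul_le_mul_of_nonneg_right ?_ hUr
    refine (hGf.trans hGc).trans ?_
    rw [hNe]
    exact mul_le_mul_of_nonneg_left (mul_le_mul_of_nonneg_left hM2 hN0'.le) hK₁.le
  calc (S.card : ℝ) * (U ^ r * M) + ((S.filter (fun j => j ∈ G)).card : ℝ) * U ^ r
      ≤ N * (U ^ r * M) + K₁ * (N * M) * U ^ r := add_le_add e1 e2
    _ = (1 + K₁) * (N * U ^ r * M) := by ring
    _ ≤ K * (N * U ^ r * M) := mul_le_mul_of_nonneg_right hKK₁ (by positivity)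
    _ = K * N * U ^ r * M := by ring

end Pool.Agent.Results.MP_16912e_nt.PolynomialAverages
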